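import Pool.Agent.Lib.MP_c57125_an.Final

set_option autoImplicit false

open Pool.Agent.Lib.MP_c57125_an

/-- **Answer to Q1 (affirmative).** For every `T ∈ (0, T_*) = (0, 1/4)`, every minimiser of `E(T)`
branches at time zero; equivalently `E(T) < E(T - ε) + ε` (here even for all `0 < ε < T`). -/
theorem Pool.Agent.Results.MP_c57125_an.BranchingAtTimeZero.result (T : ℝ) (hT : 0 < T)
    (hT' : T < 1 / 4) :
    (∀ A : AdmissiblePair T, A.IsMinimizer → A.BranchesAtZero) ∧
      (∀ ε : ℝ, 0 < ε → ε < T → minEnergy T < minEnergy (T - ε) + ENNReal.ofReal ε) :=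
  ⟨fun A hA => A.branches hT hT' hA, fun _ hε hεT => minEnergy_strict hε hεT hT'⟩
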